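import Pool.Agent.MWC.StmtsB
import Pool.Agent.Helper65_MWC.Checks

/-!
# MWC, row CR0: the identity `x²y² ≈ y²x²`
-/

namespace Pool.Agent.MWC.H47

open Pool.Agent.Helper14_MV Pool.Agent.Helper2_MV Pool.Agent.MVO Pool.Agent.MWL Pool.Agent.MWC

theorem v20 (r : Bool) : [2, 0] ∈ vls r 1 := by cases r <;> decide +kernel
theorem v02 (r : Bool) : [0, 2] ∈ vls r 1 := by cases r <;> decide +kernel
theorem v22 (r : Bool) : [2, 2] ∈ vls r 1 := by cases r <;> decide +kernel

theorem cr0 (hARB : ArbStmt) (hTYC : TycStmt) (hBTL : BtlStmt) (hMST : MstStmt) : Cr0Stmt := by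
  intro r n β H
  have A := hARB r n β H.lr
  have T := hTYC r n β H.iso H.cl H.lr
  have L := hBTL r n β H.iso H.cl H.lr
  have key : Bt β 0 (rep [2]) (rep [2]) 0 := by
    by_contra hc
    have hJ2 : ¬ HB r n β (Bit.J 2) := A.2.2.2.2.2 H.iso
    have hNB : ∀ q ∈ [((0 : ℕ), (0 : ℕ), [2], [2])],
        ¬ Bt β q.1 (rep q.2.2.1) (rep q.2.2.2) q.2.1 := by
      intro q hq
      rw [List.mem_singleton] at hq
      subst hq
      exact hc
    have main : (∀ κ ∈ tab r 1 [2, 0] 1, HB r n β κ) → False := by
      intro hk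
      have h1 := T 1 1 1 [2, 0] [2, 2] [0, 2] le_rfl le_rfl (v20 r) (v02 r) hk
        (by intro t ht; interval_cases t <;> rfl)
      have h2 : Bt β 1 (rep [2, 0]) (rep [0, 2]) 1 :=
        L.1 1 1 [2, 0] [0, 2] le_rfl (v20 r) (v02 r) rfl
      have h3 := h1.1 h2
      exact hc (L.2.1 1 0 1 0 [2, 2] [0, 2] [2] [2] [0, 0] (by decide +kernel) le_rfl rfl (v22 r)
        (v02 r) (by decide +kernel) (by decide +kernel) (by cases r <;> decide +kernel)
        (by cases r <;> decide +kernel) h3)
    cases r
    · refine hMST false n β H 1 1 [] _ _ _ _ _ _ _ _ _ _ H65.cR0a (by simp) ?_ hNB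
      intro μ hμ
      simp only [List.mem_cons, List.not_mem_nil, or_false] at hμ
      rcases hμ with rfl | rfl
      · exact hJ2
      · intro hE
        refine main ?_
        have e : tab false 1 [2, 0] 1 = [Bit.E] := by decide +kernel
        rw [e]
        intro κ hκ
        rw [List.mem_singleton] at hκ
        subst hκ
        exact hE
    · refine hMST true n β H 1 1 [] _ _ _ _ _ _ _ _ _ _ H65.cR0b (by simp) ?_ hNB
      intro μ hμ
      simp only [List.mem_cons, List.not_mem_nil, or_false] at hμ
      rcases hμ with rfl | rfl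
      · exact hJ2
      · intro hE
        refine main ?_
        have e : tab true 1 [2, 0] 1 = [Bit.G] := by decide +kernel
        rw [e]
        intro κ hκ
        rw [List.mem_singleton] at hκ
        subst hκ
        exact hE
  exact key (fun _ => false)

end Pool.Agent.MWC.H47
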